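import Mathlib
import Pool.Agent.Helper353.PST.Fam2

set_option autoImplicit false

open Matrix Finset

namespace Pool.Agent.Results.MP_620d87_co.MultiTransfer

/-- The adjacency matrix of an oriented graph with arc relation `arc`:
`A a b = 1` if `a → b`, `-1` if `b → a`, and `0` otherwise. -/
def adjOf {V : Type} (arc : V → V → Prop) [DecidableRel arc] : Matrix V V ℝ :=
  Matrix.of fun a b => if arc a b then 1 else if arc b a then -1 else 0

/-- Perfect state transfer from `a` to `b`: `exp(τA) e_a = λ e_b` for a real `τ` and `|λ| = 1`. -/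
def PST {V : Type} [Fintype V] [DecidableEq V] (A : Matrix V V ℝ) (a b : V) : Prop :=
  ∃ τ l : ℝ, |l| = 1 ∧ (NormedSpace.exp (τ • A)) *ᵥ (Pi.single a 1) = l • Pi.single b 1

/-- A switching automorphism: `Pt = P D`, `P` the permutation matrix of `σ`, `D` diagonal with
entries `±1`, and `Ptᵀ A Pt = A`. -/
def IsSwitchingAut {V : Type} [Fintype V] [DecidableEq V] (A Pt : Matrix V V ℝ) : Prop :=
  (∃ (σ : Equiv.Perm V) (d : V → ℝ), (∀ v, d v = 1 ∨ d v = -1) ∧
    Pt = (Matrix.of fun x y => if x = σ y then (1 : ℝ) else 0) * Matrix.diagonal d) ∧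
  Ptᵀ * A * Pt = A

/-- `M e_a = ± e_c`. -/
def SendsTo {V : Type} [Fintype V] [DecidableEq V] (M : Matrix V V ℝ) (a c : V) : Prop :=
  M *ᵥ (Pi.single a 1) = Pi.single c 1 ∨ M *ᵥ (Pi.single a 1) = -Pi.single c 1

/-- Multiple state transfer on `S`: perfect state transfer between any two distinct vertices. -/
def MST {V : Type} [Fintype V] [DecidableEq V] (A : Matrix V V ℝ) (S : Finset V) : Prop :=
  ∀ a ∈ S, ∀ b ∈ S, a ≠ b → PST A a b

/-- The state transfer on `S` arises from a switching automorphism `Pt`: for some `a ∈ S` there is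
perfect state transfer from `a` to `Pt a`, and `S ⊆ {Pt^k a : k ≥ 0}`. -/
def Arises {V : Type} [Fintype V] [DecidableEq V] (A : Matrix V V ℝ) (S : Finset V) : Prop :=
  ∃ Pt : Matrix V V ℝ, IsSwitchingAut A Pt ∧ ∃ a ∈ S, (∃ c, SendsTo Pt a c ∧ PST A a c) ∧
    ∀ s ∈ S, ∃ k : ℕ, SendsTo (Pt ^ k) a s

/-- vertices: three centres `(i, none)` and three cells `(i, some k)`, `k < 27`. -/
abbrev W : Type := Fin 3 × Option (Fin 27)

/-- the arcs, as a Boolean -/
def arcB : W → W → Bool
  | (i, none), (j, none) => decide (j = i + 1)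
  | (i, none), (j, some _) => decide (i = j)
  | (_, some _), (_, none) => false
  | (i, some k), (j, some l) => decide (j = i + 1 ∧ k = l) ||
      decide (i = 0 ∧ j = 0 ∧ ((k = 0 ∧ l = 1) ∨ (k = 1 ∧ l = 2) ∨ (k = 2 ∧ l = 0)))

/-- the arc relation -/
def arc (a b : W) : Prop := arcB a b = true

instance : DecidableRel arc := fun a b => inferInstanceAs (Decidable (arcB a b = true))

/-- integral adjacency matrix -/
def AZ (a b : W) : ℤ := if arcB a b then 1 else if arcB b a then -1 else 0

theorem arc_asymm : ∀ a b : W, arc a b → ¬ arc b a := by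
  unfold arc
  decide +kernel

theorem adj_cast (a b : W) : adjOf arc a b = (AZ a b : ℝ) := by
  rw [adjOf, Matrix.of_apply]
  by_cases h1 : arc a b
  · have e : AZ a b = 1 := if_pos h1
    rw [if_pos h1, e]; simp
  · rw [if_neg h1]
    by_cases h2 : arc b a
    · have e : AZ a b = -1 := (if_neg h1).trans (if_pos h2)
      rw [if_pos h2, e]; simp
    · have e : AZ a b = 0 := (if_neg h1).trans (if_neg h2)
      rw [if_neg h2, e]; simp

/-- cyclic skew form on `Fin 3` -/
def cz (i j : Fin 3) : ℤ := if j = i + 1 then 1 else if i = j + 1 then -1 else 0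

theorem AZ_nn (i j : Fin 3) : AZ (i, none) (j, none) = cz i j := by
  revert i j; decide +kernel

theorem AZ_ns (i j : Fin 3) (k : Fin 27) : AZ (i, none) (j, some k) = if i = j then 1 else 0 := by
  revert i j k; decide +kernel

theorem AZ_sn (i j : Fin 3) (k : Fin 27) :
    AZ (i, some k) (j, none) = if i = j then -1 else 0 := by
  revert i j k; decide +kernel

theorem AZ_ss (i j : Fin 3) (k : Fin 27) : ∑ l, AZ (i, some k) (j, some l) = cz i j := by
  revert i j k; decide +kernel

/-- `x_{ω,q}` -/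
def xv (w : Fin 3 → ℂ) (q : ℂ) : W → ℂ
  | (j, none) => w j
  | (j, some _) => q * w j

theorem sum_W (f : W → ℂ) : ∑ v, f v = ∑ j, (f (j, none) + ∑ k, f (j, some k)) := by
  rw [Fintype.sum_prod_type]
  exact Finset.sum_congr rfl fun j _ => Fintype.sum_option _

/-- the action on the quotient -/
theorem mul_xv (w : Fin 3 → ℂ) (q μ θ : ℂ) (hw : ∀ i, ∑ j, (cz i j : ℂ) * w j = μ * w i)
    (h1 : μ + 27 * q = θ) (h2 : -1 + μ * q = θ * q) :
    ((adjOf arc).map (fun x : ℝ => (x : ℂ))) *ᵥ (xv w q) = θ • xv w q := by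
  funext v
  simp only [Matrix.mulVec, dotProduct, Matrix.map_apply, adj_cast, Pi.smul_apply, smul_eq_mul]
  rw [sum_W]
  rcases v with ⟨i, _ | k⟩
  · simp only [AZ_nn, AZ_ns, xv]
    rw [Finset.sum_add_distrib]
    have e1 : ∑ j, (((cz i j : ℤ) : ℝ) : ℂ) * w j = μ * w i := by
      rw [← hw i]; refine Finset.sum_congr rfl fun j _ => ?_; push_cast; ring
    rw [e1]
    have e2 : ∑ j, ∑ _k : Fin 27, ((((if i = j then 1 else 0 : ℤ)) : ℝ) : ℂ) * (q * w j) =
        27 * (q * w i) := by
      have : ∀ j, ∑ _k : Fin 27, ((((if i = j then 1 else 0 : ℤ)) : ℝ) : ℂ) * (q * w j) =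
          if i = j then 27 * (q * w j) else 0 := by
        intro j
        rw [Finset.sum_const, Finset.card_univ, Fintype.card_fin]
        split_ifs <;> simp
      simp only [this]
      simp
    rw [e2, ← h1]
    ring
  · simp only [AZ_sn, xv]
    rw [Finset.sum_add_distrib]
    have e1 : ∑ j, ((((if i = j then -1 else 0 : ℤ)) : ℝ) : ℂ) * w j = -w i := by
      have : ∀ j, ((((if i = j then -1 else 0 : ℤ)) : ℝ) : ℂ) * w j =
          if i = j then -w j else 0 := by
        intro j; split_ifs <;> simp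
      simp only [this]
      simp
    rw [e1]
    have e2 : ∑ j, ∑ l, ((((AZ (i, some k) (j, some l)) : ℤ) : ℝ) : ℂ) * (q * w j) =
        q * (μ * w i) := by
      rw [← hw i, Finset.mul_sum]
      refine Finset.sum_congr rfl fun j _ => ?_
      rw [← Finset.sum_mul, ← AZ_ss i j k]
      push_cast
      ring
    rw [e2]
    linear_combination (w i) * h2

theorem exp_map (M : Matrix W W ℝ) : (NormedSpace.exp M).map (fun x : ℝ => (x : ℂ)) =
    NormedSpace.exp (M.map (fun x : ℝ => (x : ℂ))) := by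
  open scoped Matrix.Norms.Operator in
  exact NormedSpace.map_exp (Complex.ofRealHom.mapMatrix (m := W))
    (Continuous.matrix_map continuous_id Complex.continuous_ofReal) M

/-- powers of `ω`, as a vector on `Fin 3` -/
def wv (ω : ℂ) : Fin 3 → ℂ := ![1, ω, ω ^ 2]

theorem wv_eig (ω : ℂ) (h : ω ^ 3 = 1) (i : Fin 3) :
    ∑ j, (cz i j : ℂ) * wv ω j = (ω - ω ^ 2) * wv ω i := by
  fin_cases i <;> simp [Fin.sum_univ_three, cz, wv]
  · ring
  · linear_combination h
  · linear_combination (ω - 1) * h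

/-- the time -/
noncomputable def tau : ℝ := 2 * Real.pi / (3 * Real.sqrt 3)

/-- twice `w` on the centres, zero on the cells -/
def yv (w : Fin 3 → ℂ) : W → ℂ
  | (j, none) => 2 * w j
  | (_, some _) => 0

theorem yv_eq (w : Fin 3 → ℂ) (q : ℂ) : yv w = xv w q + xv w (-q) := by
  funext v
  rcases v with ⟨j, _ | k⟩
  · simp only [yv, xv, Pi.add_apply]; ring
  · simp only [yv, xv, Pi.add_apply]; ring

theorem exp_yv (ω : ℂ) (h : ω ^ 3 = 1) (hω : Complex.exp (tau * (ω - ω ^ 2)) = ω) (n : ℕ) :
    (NormedSpace.exp (((n : ℝ) * tau) • adjOf arc)).map (fun x : ℝ => (x : ℂ)) *ᵥ (yv (wv ω)) =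
      ω ^ n • yv (wv ω) := by
  have h3 : (Real.sqrt 3 : ℂ) ^ 2 = 3 := by
    rw [← Complex.ofReal_pow, Real.sq_sqrt (by norm_num)]; norm_num
  have hs3 : (Real.sqrt 3 : ℂ) ≠ 0 := by
    intro h0; rw [h0] at h3; norm_num at h3
  rw [exp_map]
  have key : ∀ q θ : ℂ, (q = Complex.I / (3 * Real.sqrt 3) ∨ q = -(Complex.I / (3 * Real.sqrt 3))) →
      θ = (ω - ω ^ 2) + 27 * q →
      (NormedSpace.exp ((((n : ℝ) * tau) • adjOf arc).map (fun x : ℝ => (x : ℂ)))) *ᵥ
        (xv (wv ω) q) = ω ^ n • xv (wv ω) q := by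
    intro q θ hq hθ
    have hq2 : 27 * q ^ 2 = -1 := by
      have : q ^ 2 = (Complex.I / (3 * Real.sqrt 3)) ^ 2 := by
        rcases hq with rfl | rfl
        · rfl
        · ring
      rw [this, div_pow, mul_pow, h3, Complex.I_sq]
      norm_num
    have h1 := mul_xv (wv ω) q (ω - ω ^ 2) θ (wv_eig ω h) hθ.symm
      (by rw [hθ]; linear_combination -hq2)
    have h2 : ((((n : ℝ) * tau) • adjOf arc).map (fun x : ℝ => (x : ℂ))) *ᵥ (xv (wv ω) q) =
        ((n * tau : ℂ) * θ) • xv (wv ω) q := by
      have : (((n : ℝ) * tau) • adjOf arc).map (fun x : ℝ => (x : ℂ)) =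
          (n * tau : ℂ) • (adjOf arc).map (fun x : ℝ => (x : ℂ)) := by
        ext a b
        simp
      rw [this, Matrix.smul_mulVec, h1, smul_smul]
    have h4 := Pool.Agent.Helper353.PST.exp_mulVec_of_eigen _ _ _ h2
    rw [h4]
    congr 1
    have h5 : (n * tau : ℂ) * θ = n * (tau * (ω - ω ^ 2)) + n * (tau * (27 * q)) := by
      rw [hθ]; ring
    rw [h5, Complex.exp_add, Complex.exp_nat_mul, hω]
    have h6 : Complex.exp (n * (tau * (27 * q))) = 1 := by
      rw [Complex.exp_nat_mul]
      have h7 : Complex.exp (tau * (27 * q)) = 1 := by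
        have h8 : (tau : ℂ) * (27 * (Complex.I / (3 * Real.sqrt 3))) = 2 * Real.pi * Complex.I := by
          unfold tau
          push_cast
          field_simp
          rw [h3]
          ring
        rcases hq with rfl | rfl
        · rw [h8]; exact Complex.exp_two_pi_mul_I
        · have : (tau : ℂ) * (27 * -(Complex.I / (3 * Real.sqrt 3))) =
              -(2 * Real.pi * Complex.I) := by
            rw [← h8]; ring
          rw [this, Complex.exp_neg, Complex.exp_two_pi_mul_I, inv_one]
      rw [h7, one_pow]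
    rw [h6, mul_one]
  rw [yv_eq (wv ω) (Complex.I / (3 * Real.sqrt 3)), Matrix.mulVec_add,
    key _ _ (Or.inl rfl) rfl, key _ _ (Or.inr rfl) rfl, smul_add]

theorem exp_one : Complex.exp (tau * ((1 : ℂ) - 1 ^ 2)) = 1 := by simp

/-- primitive cube root of unity -/
noncomputable def zeta : ℂ := ⟨-1 / 2, Real.sqrt 3 / 2⟩

theorem zeta_sq : zeta ^ 2 = ⟨-1 / 2, -(Real.sqrt 3 / 2)⟩ := by
  have h : Real.sqrt 3 * Real.sqrt 3 = 3 := Real.mul_self_sqrt (by norm_num)
  apply Complex.ext
  · simp [zeta, pow_two]; nlinarith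
  · simp [zeta, pow_two]; ring

theorem zeta_rel : 1 + zeta + zeta ^ 2 = 0 := by
  rw [zeta_sq]
  apply Complex.ext
  · simp [zeta]; norm_num
  · simp [zeta]

theorem zeta_cube : zeta ^ 3 = 1 := by
  have := zeta_rel
  linear_combination (zeta - 1) * this

theorem exp_two_pi_div_three : Complex.exp ((2 * Real.pi / 3 : ℝ) * Complex.I) = zeta := by
  have e : (2 * Real.pi / 3 : ℝ) = Real.pi - Real.pi / 3 := by ring
  apply Complex.ext
  · rw [Complex.exp_ofReal_mul_I_re, e, Real.cos_pi_sub, Real.cos_pi_div_three]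
    simp [zeta]; norm_num
  · rw [Complex.exp_ofReal_mul_I_im, e, Real.sin_pi_sub, Real.sin_pi_div_three]
    simp [zeta]

theorem tau_sqrt : tau * Real.sqrt 3 = 2 * Real.pi / 3 := by
  have hs : Real.sqrt 3 ≠ 0 := by positivity
  unfold tau
  field_simp

theorem exp_zeta : Complex.exp (tau * (zeta - zeta ^ 2)) = zeta := by
  refine Eq.trans ?_ exp_two_pi_div_three
  congr 1
  have h : zeta - zeta ^ 2 = (Real.sqrt 3 : ℝ) * Complex.I := by
    rw [zeta_sq]
    apply Complex.ext
    · simp [zeta]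
    · simp [zeta]
  rw [h, ← tau_sqrt]
  push_cast
  ring

theorem exp_zeta2 : Complex.exp (tau * (zeta ^ 2 - (zeta ^ 2) ^ 2)) = zeta ^ 2 := by
  have h1 : (zeta ^ 2) ^ 2 = zeta := by linear_combination zeta * zeta_cube
  rw [h1]
  have h2 : (tau : ℂ) * (zeta ^ 2 - zeta) = -(tau * (zeta - zeta ^ 2)) := by ring
  rw [h2, Complex.exp_neg, exp_zeta]
  have hz : zeta ≠ 0 := by
    intro h0
    have := zeta_cube
    rw [h0] at this
    norm_num at this
  field_simp
  linear_combination -zeta_cube

theorem zeta2_cube : (zeta ^ 2) ^ 3 = 1 := by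
  linear_combination (zeta ^ 3 + 1) * zeta_cube

/-- coefficients of `e_c` -/
def cf (ω : ℂ) : Fin 3 → ℂ := ![1, ω ^ 2, ω]

theorem single_eq (c : Fin 3) : (Pi.single ((c, none) : W) (1 : ℂ) : W → ℂ) =
    (1 / 6 : ℂ) • (yv (wv 1) + cf zeta c • yv (wv zeta) + cf (zeta ^ 2) c • yv (wv (zeta ^ 2))) := by
  have hr := zeta_rel
  funext v
  rcases v with ⟨j, _ | k⟩
  · simp only [Pi.smul_apply, Pi.add_apply, smul_eq_mul, yv]
    fin_cases c <;> fin_cases j <;> simp [cf, wv]
    all_goals first
      | done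
      | (norm_num; done)
      | linear_combination (2 : ℂ) * hr
      | linear_combination (2 : ℂ) * (1 - zeta + zeta ^ 2) * hr
      | linear_combination (-1 / 3 : ℂ) * (zeta - 1) * (zeta ^ 3 + 2) * hr
      | linear_combination (2 : ℂ) * (1 - zeta + zeta ^ 2) * (1 - zeta ^ 2 + zeta ^ 4) * hr
  · simp [yv]

/-- the walk moves the centre `c` to the centre `c - n` at time `nτ`. -/
theorem exp_single (c : Fin 3) (n : ℕ) (c' : Fin 3)
    (h1 : cf zeta c * zeta ^ n = cf zeta c')
    (h2 : cf (zeta ^ 2) c * (zeta ^ 2) ^ n = cf (zeta ^ 2) c') :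
    (NormedSpace.exp (((n : ℝ) * tau) • adjOf arc)) *ᵥ (Pi.single ((c, none) : W) 1) =
      Pi.single ((c', none) : W) 1 := by
  have key : (NormedSpace.exp (((n : ℝ) * tau) • adjOf arc)).map (fun x : ℝ => (x : ℂ)) *ᵥ
      (Pi.single ((c, none) : W) 1) = Pi.single ((c', none) : W) 1 := by
    rw [single_eq c, single_eq c', Matrix.mulVec_smul, Matrix.mulVec_add, Matrix.mulVec_add,
      Matrix.mulVec_smul, Matrix.mulVec_smul, exp_yv 1 (by norm_num) exp_one n,
      exp_yv zeta zeta_cube exp_zeta n, exp_yv (zeta ^ 2) zeta2_cube exp_zeta2 n,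
      smul_smul, smul_smul, h1, h2, one_pow, one_smul]
  funext v
  have h3 := congrFun key v
  have h4 : ((((NormedSpace.exp (((n : ℝ) * tau) • adjOf arc)) *ᵥ
      (Pi.single ((c, none) : W) 1)) v : ℝ) : ℂ) =
      ((Pi.single ((c', none) : W) (1 : ℝ) : W → ℝ) v : ℂ) := by
    rw [Matrix.mulVec_single_one] at h3 ⊢
    have h5 : ((Pi.single ((c', none) : W) (1 : ℝ) : W → ℝ) v : ℂ) =
        (Pi.single ((c', none) : W) (1 : ℂ) : W → ℂ) v := by
      simp only [Pi.single_apply]
      split_ifs <;> simp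
    rw [h5, ← h3]
    rfl
  exact_mod_cast h4

/-- the set of the three centres -/
def S : Finset W := {(0, none), (1, none), (2, none)}

theorem mst : MST (adjOf arc) S := by
  have h3 := zeta_cube
  have key : ∀ (c c' : Fin 3) (n : ℕ), cf zeta c * zeta ^ n = cf zeta c' →
      cf (zeta ^ 2) c * (zeta ^ 2) ^ n = cf (zeta ^ 2) c' →
      PST (adjOf arc) (c, none) (c', none) := by
    intro c c' n h1 h2
    refine ⟨(n : ℝ) * tau, 1, by norm_num, ?_⟩
    rw [one_smul]
    exact exp_single c n c' h1 h2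
  have k01 : PST (adjOf arc) (0, none) (1, none) :=
    key 0 1 2 (by simp [cf]) (by simp [cf])
  have k02 : PST (adjOf arc) (0, none) (2, none) :=
    key 0 2 1 (by simp [cf]) (by simp [cf])
  have k10 : PST (adjOf arc) (1, none) (0, none) :=
    key 1 0 1 (by simp [cf]; linear_combination h3)
      (by simp [cf]; linear_combination (zeta ^ 3 + 1) * h3)
  have k12 : PST (adjOf arc) (1, none) (2, none) :=
    key 1 2 2 (by simp [cf]; linear_combination zeta * h3)
      (by simp [cf]; linear_combination zeta ^ 2 * (zeta ^ 3 + 1) * h3)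
  have k20 : PST (adjOf arc) (2, none) (0, none) :=
    key 2 0 2 (by simp [cf]; linear_combination h3)
      (by simp [cf]; linear_combination (zeta ^ 3 + 1) * h3)
  have k21 : PST (adjOf arc) (2, none) (1, none) :=
    key 2 1 1 (by simp [cf]; ring) (by simp [cf]; ring)
  intro a ha b hb hab
  simp only [S, Finset.mem_insert, Finset.mem_singleton] at ha hb
  rcases ha with rfl | rfl | rfl <;> rcases hb with rfl | rfl | rfl <;>
    first
      | exact absurd rfl hab
      | assumption

/-- degree of a vertex in the underlying graph -/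
def dg (a : W) : ℕ := (univ.filter fun b => AZ a b ≠ 0).card

/-- the invariant which singles out the centre `0`: degree `29` and a neighbour of degree `5`. -/
def inv (a : W) : Prop := dg a = 29 ∧ ∃ b, AZ a b ≠ 0 ∧ dg b = 5

theorem dg29 : ∀ a : W, dg a = 29 → a = (0, none) ∨ a = (1, none) ∨ a = (2, none) := by
  decide +kernel

theorem inv0 : dg (0, none) = 29 ∧ AZ (0, none) (0, some 0) ≠ 0 ∧ dg (0, some 0) = 5 := by
  decide +kernel

theorem ninv1 : ∀ b, AZ (1, none) b ≠ 0 → dg b ≠ 5 := by
  decide +kernel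

theorem ninv2 : ∀ b, AZ (2, none) b ≠ 0 → dg b ≠ 5 := by
  decide +kernel

theorem inv_eq (a : W) (h : inv a) : a = (0, none) := by
  obtain ⟨h1, b, h2, h3⟩ := h
  rcases dg29 a h1 with rfl | rfl | rfl
  · rfl
  · exact absurd h3 (ninv1 b h2)
  · exact absurd h3 (ninv2 b h2)

theorem not_arises : ¬ Arises (adjOf arc) S := by
  rintro ⟨Pt, ⟨⟨σ, d, hd, hPt⟩, hA⟩, a, ha, -, horb⟩
  have hcol : ∀ c : W, Pt *ᵥ (Pi.single c 1) = d c • Pi.single (σ c) 1 := by
    intro c
    rw [hPt, Matrix.mulVec_single_one]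
    funext x
    simp only [Matrix.col_apply, Matrix.mul_diagonal, Matrix.of_apply, Pi.smul_apply, smul_eq_mul,
      Pi.single_apply]
    split_ifs <;> simp
  have hd0 : ∀ v, d v ≠ 0 := by
    intro v; rcases hd v with h | h <;> rw [h] <;> norm_num
  -- the underlying graph is preserved
  have hent : ∀ b c, d b * d c * adjOf arc (σ b) (σ c) = adjOf arc b c := by
    intro b c
    conv_rhs => rw [← hA]
    rw [Matrix.mul_assoc, Matrix.mul_apply]
    have e1 : ∀ x, (Ptᵀ) b x = if x = σ b then d b else 0 := by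
      intro x
      rw [Matrix.transpose_apply, hPt, Matrix.mul_diagonal, Matrix.of_apply]
      split_ifs <;> simp
    have e2 : ∀ x, (adjOf arc * Pt) x c = adjOf arc x (σ c) * d c := by
      intro x
      rw [Matrix.mul_apply]
      have : ∀ y, adjOf arc x y * Pt y c = if y = σ c then adjOf arc x (σ c) * d c else 0 := by
        intro y
        rw [hPt, Matrix.mul_diagonal, Matrix.of_apply]
        split_ifs with h
        · rw [h]; ring
        · simp
      simp only [this]
      simp
    simp only [e1, e2]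
    simp
    ring
  have hnz : ∀ b c, AZ (σ b) (σ c) ≠ 0 ↔ AZ b c ≠ 0 := by
    intro b c
    have h1 := hent b c
    rw [adj_cast, adj_cast] at h1
    have h2 : d b * d c ≠ 0 := mul_ne_zero (hd0 b) (hd0 c)
    constructor
    · intro h h0
      rw [h0] at h1
      simp only [Int.cast_zero, mul_eq_zero] at h1
      rcases h1 with h3 | h3
      · exact h2 (mul_eq_zero.mpr h3)
      · exact h (by exact_mod_cast h3)
    · intro h h0
      rw [h0] at h1
      simp only [Int.cast_zero, mul_zero] at h1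
      exact h (by exact_mod_cast h1.symm)
  have hdg : ∀ b, dg (σ b) = dg b := by
    intro b
    unfold dg
    symm
    refine Finset.card_bij (fun x _ => σ x) ?_ ?_ ?_
    · intro x hx
      simp only [Finset.mem_filter, Finset.mem_univ, true_and] at hx ⊢
      exact (hnz b x).mpr hx
    · intro x _ y _ h
      exact σ.injective h
    · intro y hy
      simp only [Finset.mem_filter, Finset.mem_univ, true_and] at hy
      refine ⟨σ.symm y, ?_, by simp⟩
      simp only [Finset.mem_filter, Finset.mem_univ, true_and]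
      rw [← hnz b]
      simpa using hy
  have hfix : σ (0, none) = (0, none) := by
    apply inv_eq
    obtain ⟨h1, h2, h3⟩ := inv0
    refine ⟨by rw [hdg]; exact h1, σ (0, some 0), (hnz _ _).mpr h2, by rw [hdg]; exact h3⟩
  -- powers
  have hpow : ∀ (k : ℕ) (c : W), ∃ e : ℝ, e ≠ 0 ∧
      (Pt ^ k) *ᵥ (Pi.single c 1) = e • Pi.single ((σ ^ k) c) 1 := by
    intro k
    induction k with
    | zero =>
      intro c
      exact ⟨1, one_ne_zero, by rw [pow_zero, Matrix.one_mulVec, one_smul, pow_zero]; rfl⟩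
    | succ k ih =>
      intro c
      obtain ⟨e, he, h⟩ := ih (σ c)
      refine ⟨d c * e, mul_ne_zero (hd0 c) he, ?_⟩
      rw [pow_succ, ← Matrix.mulVec_mulVec, hcol, Matrix.mulVec_smul, h, smul_smul, pow_succ,
        Equiv.Perm.mul_apply]
  have hsend : ∀ (k : ℕ) (c s : W), SendsTo (Pt ^ k) c s → (σ ^ k) c = s := by
    intro k c s hs
    obtain ⟨e, he, h⟩ := hpow k c
    by_contra hne
    unfold SendsTo at hs
    rw [h] at hs
    rcases hs with h1 | h1
    · have h2 := congrFun h1 ((σ ^ k) c)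
      simp only [Pi.smul_apply, Pi.single_eq_same, smul_eq_mul, mul_one,
        Pi.single_eq_of_ne hne] at h2
      exact he h2
    · have h2 := congrFun h1 ((σ ^ k) c)
      simp only [Pi.smul_apply, Pi.single_eq_same, smul_eq_mul, mul_one, Pi.neg_apply,
        Pi.single_eq_of_ne hne, neg_zero] at h2
      exact he h2
  have hfixk : ∀ k : ℕ, (σ ^ k) (0, none) = (0, none) := by
    intro k
    induction k with
    | zero => simp
    | succ k ih => rw [pow_succ, Equiv.Perm.mul_apply, hfix, ih]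
  obtain ⟨k0, hk0⟩ := horb (0, none) (by simp [S])
  obtain ⟨k1, hk1⟩ := horb (1, none) (by simp [S])
  have h0 := hsend _ _ _ hk0
  have ha0 : a = (0, none) := by
    apply (σ ^ k0).injective
    rw [h0, hfixk]
  have h1 := hsend _ _ _ hk1
  rw [ha0, hfixk] at h1
  exact absurd h1 (by decide)

/-- There is an oriented graph with non-trivial multiple state transfer that does not arise from a
switching automorphism. -/
theorem result : ∃ (V : Type) (_ : Fintype V) (_ : DecidableEq V) (arc : V → V → Prop)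
    (_ : DecidableRel arc) (S : Finset V), (∀ a b, arc a b → ¬ arc b a) ∧ 3 ≤ S.card ∧
    MST (adjOf arc) S ∧ ¬ Arises (adjOf arc) S :=
  ⟨W, inferInstance, inferInstance, arc, inferInstance, S, arc_asymm, by decide, mst, not_arises⟩

end Pool.Agent.Results.MP_620d87_co.MultiTransfer
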